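import Pool.Agent.T9h22.GP.B1
import Pool.Agent.T9h40.GC.Spec2

/-!
# Plane curves are examples
-/

open Polynomial Filter Topology Bornology

namespace Pool.Agent.T9h22.GC

open Pool.Agent.T9h40.GP (HypP)
open Pool.Agent.T9h40.GC Pool.Agent.T9h22.GP

/-- The branch `y_l` is asymptotic to the polynomial `A_l`. -/
theorem branch_sub {n e : ℕ} {P : Polynomial ℂ[X]} {A : Fin n → ℂ[X]} (h : HypP n e P A) {R : ℝ}
    {y : Fin n → ℂ → ℂ} (hfac : ∀ t, R < ‖t‖ → ∀ s, evalEval t s P = ∏ j, (s - y j t))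
    (hlim : ∀ l, Tendsto (fun t => y l t / t ^ e) (cobounded ℂ) (𝓝 (A l).leadingCoeff))
    (l : Fin n) : Tendsto (fun t => (A l).eval t - y l t) (cobounded ℂ) (𝓝 0) := by
  have h1 : Tendsto (fun t => (P.eval (A l)).eval t / t ^ (e * (n - 1))) (cobounded ℂ) (𝓝 0) := by
    have := lim_poly (P.eval (A l)) (e * (n - 1)) (h.low l).le
    rwa [coeff_eq_zero_of_natDegree_lt (h.low l)] at this
  have h2 : Tendsto (fun t => ∏ i ∈ Finset.univ.erase l, ((A l).eval t - y i t) / t ^ e)
      (cobounded ℂ) (𝓝 (∏ i ∈ Finset.univ.erase l,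
        ((A l).leadingCoeff - (A i).leadingCoeff))) := by
    refine tendsto_finsetProd _ fun i _ => ?_
    refine ((lim_A h l).sub (hlim i)).congr fun t => ?_
    rw [sub_div]
  have h3 : (∏ i ∈ Finset.univ.erase l, ((A l).leadingCoeff - (A i).leadingCoeff)) ≠ 0 := by
    rw [Finset.prod_ne_zero_iff]
    intro i hi h0
    exact (Finset.ne_of_mem_erase hi) (h.inj (sub_eq_zero.1 h0)).symm
  have h4 := h1.div h2 h3
  rw [zero_div] at h4
  refine h4.congr' ?_
  filter_upwards [ne0_ev, eventually_cobounded_le_norm (E := ℂ) (R + 1),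
    h2.eventually_ne h3] with t ht htR hne
  have hte : t ^ e ≠ 0 := pow_ne_zero _ ht
  have h5 : (P.eval (A l)).eval t = ((A l).eval t - y l t) *
      ∏ i ∈ Finset.univ.erase l, ((A l).eval t - y i t) := by
    rw [← sp_eval_eval, hfac t (by linarith)]
    exact (Finset.mul_prod_erase Finset.univ (fun i => (A l).eval t - y i t)
      (Finset.mem_univ l)).symm
  have h6 : (∏ i ∈ Finset.univ.erase l, ((A l).eval t - y i t) / t ^ e) =
      (∏ i ∈ Finset.univ.erase l, ((A l).eval t - y i t)) / t ^ (e * (n - 1)) := by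
    rw [Finset.prod_div_distrib, Finset.prod_const, Finset.card_erase_of_mem (Finset.mem_univ l),
      Finset.card_univ, Fintype.card_fin, ← pow_mul]
  rw [Pi.div_apply]
  rw [h6] at hne ⊢
  have hte2 : t ^ (e * (n - 1)) ≠ 0 := pow_ne_zero _ ht
  have h7 : (∏ i ∈ Finset.univ.erase l, ((A l).eval t - y i t)) ≠ 0 := by
    intro h0
    apply hne
    rw [h0, zero_div]
  rw [h5]
  field_simp

theorem plane : Plane := by
  intro n e P A h
  obtain ⟨R, y, hR, hfac, hlim⟩ := b1 n e P A h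
  have hev : ∀ᶠ t in cobounded ℂ, ∀ l, ‖y l t - (A l).eval t‖ < 1 := by
    rw [eventually_all]; intro l
    have h1 := (branch_sub h hfac hlim l).norm
    rw [norm_zero] at h1
    filter_upwards [h1.eventually_lt_const one_pos] with t ht
    rwa [norm_sub_rev]
  rw [← comap_norm_atTop, eventually_comap] at hev
  obtain ⟨R0, hR0⟩ := eventually_atTop.1 hev
  refine ⟨fun _ => h, ?_, max R R0, ?_, ?_⟩
  · intro p hp i
    have hi : i = 0 := Fin.fin_one_eq_zero i
    rw [hi]
    exact hp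
  · intro p hp hpR
    have h1 : R < ‖p.1‖ := lt_of_le_of_lt (le_max_left _ _) hpR
    have h2 : R0 ≤ ‖p.1‖ := (le_max_right _ _).trans hpR.le
    have h3 : evalEval p.1 (p.2 0) P = 0 := hp
    rw [hfac _ h1, Finset.prod_eq_zero_iff] at h3
    obtain ⟨l, _, hl⟩ := h3
    refine ⟨l, fun i => ?_⟩
    have hi : i = 0 := Fin.fin_one_eq_zero i
    rw [hi, sub_eq_zero.1 hl]
    exact hR0 ‖p.1‖ h2 p.1 rfl l
  · intro t ht l
    have h1 : R < ‖t‖ := lt_of_le_of_lt (le_max_left _ _) ht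
    have h2 : R0 ≤ ‖t‖ := (le_max_right _ _).trans ht.le
    refine ⟨fun _ => y l t, ?_, fun i => hR0 ‖t‖ h2 t rfl l⟩
    change evalEval t (y l t) P = 0
    rw [hfac _ h1]
    exact Finset.prod_eq_zero (Finset.mem_univ l) (sub_self _)

end Pool.Agent.T9h22.GC
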